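import Pool.Agent.Helper35.OE.GoalsE

set_option autoImplicit false

/-!
# Project OE (MP_fc0446_an), block E, packet STAB: Borel-Cantelli
-/

open MeasureTheory
open scoped ENNReal

namespace Pool.Agent.Helper54.OE

open Pool.Agent.Helper73.OE Pool.Agent.Helper35.OE

theorem laws_inv (hBE : BatchEquiv_stmt) (hBM : BatchMeas_stmt) (hH : G_HEAD) (hL : G_LAW)
    (hI : G_INV) {H S L : Type} [Group H] [Countable H] [Fintype S] [Fintype L] (X : Sys H S L)
    (P : ℕ → Par) (ε : ℕ → ℝ) (μ : Measure (Cfg H S L × Env H S)) [IsProbabilityMeasure μ]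
    (h0 : Sys.Inv μ) : ∀ i : ℕ, Sys.Inv (laws X P ε μ i)
  | 0 => h0
  | i + 1 => by
    have := (hL hBM hH X P ε μ i).2.1
    exact hI hBE hBM X (P i) (ε i) (ε (i + 1)) (laws X P ε μ i)
      (laws_inv hBE hBM hH hL hI X P ε μ h0 i)

theorem event_const {α : Type} (x : ℕ → α) (h : ∀ᶠ i : ℕ in Filter.atTop, x (i + 1) = x i) :
    ∃ f : α, ∀ᶠ i : ℕ in Filter.atTop, x i = f := by
  obtain ⟨N, hN⟩ := Filter.eventually_atTop.1 h
  refine ⟨x N, Filter.eventually_atTop.2 ⟨N, fun i hi => ?_⟩⟩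
  induction i, hi using Nat.le_induction with
  | base => rfl
  | succ n hn ih => rw [hN n hn, ih]

theorem gSTAB : G_STAB := by
  intro hBE hBM hH hL hI hS H S L _ _ _ _ X P ε μ _ h0 hsum
  have hv : ∀ v : H, ∀ᵐ w ∂(μ.prod (lamN H S)),
      ∃ f : S ≃ L, ∀ᶠ i : ℕ in Filter.atTop, traj X P ε w i v = f := by
    intro v
    have hb : ∀ i : ℕ, (μ.prod (lamN H S)) {w | traj X P ε w (i + 1) v ≠ traj X P ε w i v} ≤
        ((laws X P ε μ i).prod (Sys.lamS H S))
          {w | X.batch (P i) (ε i) (ε (i + 1)) w.1.1 w.1.2 w.2 1 ≠ w.1.1 1} := by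
      intro i
      obtain ⟨hm, hp, he⟩ := hL hBM hH X P ε μ i
      have hT : Measurable (fun w : Om H S L => ((traj X P ε w i, w.1.2), w.2 i)) :=
        (hm.prodMk (measurable_snd.comp measurable_fst)).prodMk
          ((measurable_pi_apply i).comp measurable_snd)
      have h1 := hS hBE hBM X (P i) (ε i) (ε (i + 1)) (laws X P ε μ i)
        (laws_inv hBE hBM hH hL hI X P ε μ h0 i) v
      rw [← h1, ← he]
      exact Measure.le_map_apply hT.aemeasurable _
    have hs : ∑' i : ℕ, (μ.prod (lamN H S))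
        {w | traj X P ε w (i + 1) v ≠ traj X P ε w i v} ≠ ⊤ :=
      ne_top_of_le_ne_top hsum (ENNReal.tsum_le_tsum hb)
    filter_upwards [ae_eventually_notMem hs] with w hw
    refine event_const (fun i => traj X P ε w i v) ?_
    filter_upwards [hw] with i hi
    by_contra hne
    exact hi hne
  exact (ae_all_iff).2 hv

end Pool.Agent.Helper54.OE
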